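import Pool.Agent.K7.H9.TP.Sys
import Pool.Agent.K7.H9.TP.Times
import Pool.Agent.R937.PZ.Geo2

/-!
# The Tate conjecture for products of abelian varieties of dimension at most three over finite fields,
and for the products of abelian varieties with arbitrary varieties

An abelian variety over the field with `p ^ a` elements is modelled by `RedAV` (Honda, Tate: over an
algebraic closure each abelian variety is isogenous to a finite product of reductions of abelian
varieties of CM type): CM types `(E i, Φ i)` with Weil numbers `π i ∈ E i` that satisfy the formula of
Shimura and Taniyama. Its cohomology with coefficients in an algebraically closed field `Ω` consists of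
the alternating forms on `TM Ω Y = Ω ⊗ H_1`, on which Frobenius acts by `π`.

Let `𝒜` be the system of all linear combinations of classes of algebraic cycles on abelian varieties
over finite fields of characteristic `p`. The theorem only uses that it is stable (`IsStable`): it
contains the classes of degree zero and the Tate classes of degree two (theorem of Tate), and is stable
under linear combinations, cup products, pull-backs along homomorphisms and push-forwards along
projections.

**Theorem 1.** For every characteristic `p` the following are equivalent.

1. (`AllTate`) The Tate conjecture holds for all products `Y` of any number of abelian varieties of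
   dimension at most three, in all degrees and over all finite fields.
2. (`FourTate`) It holds for cycles of codimension two on products of at most four abelian varieties
   of dimension at most three.
3. (`FourHodge`) The reductions of the Hodge classes of degree four on products of at most four abelian
   varieties of CM type of dimension at most three are algebraic.

So the Hodge conjecture for cycles of codimension two on products of four abelian threefolds of CM type
implies the Tate conjecture, in all codimensions, for all products of abelian varieties of dimension at
most three over finite fields. No hypothesis on Newton polygons or Galois groups is made.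

**Theorem 2.** All Tate classes are in `𝒜` for the abelian varieties `Y` of the following kinds
(`IsGoodAVP`): all abelian varieties of dimension at most five; all abelian varieties that are isogenous
over an algebraic closure to a product of a supersingular abelian variety and of abelian varieties of
dimension at most three (any number, any multiplicity), such that any two factors of dimension three
whose CM fields have the same Galois closure satisfy one of the following: their fields are Galois over
`ℚ`; one of them is supersingular; they are isogenous; neither of them is ordinary and their `p`-ranks
are not `{1, 2}`. Here it is used (`HasKnownClasses`) that the reductions of split Weil classes on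
abelian fourfolds and sixfolds, and the reductions of Hodge classes of degree four on products of
elliptic curves and abelian surfaces, are algebraic (theorems of Markman and Ramón Marí).

**Theorem 3.** Let `Y` be **any** abelian variety over a finite field that satisfies the Tate conjecture
(`TateAV`; for example those of Theorem 2, and all products of abelian varieties of dimension at most
three if 3. holds), and let `U` be **any** smooth projective variety such that the eigenvalues `α` of
Frobenius on its cohomology are independent of `Y` (`AreIndependent`: for some `N > 0` the intersection
of `ℚ(α ^ N)` with the compositum of the Galois closures of the CM fields of the factors of `Y` is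
totally real) and not of supersingular type in odd degree (for example, if the odd cohomology of `U` is
zero). Then for all codimensions `c` the Tate conjecture holds for `Y × U` in codimension `c` if and
only if it holds for `U` in the codimensions `c - i`, `0 ≤ i ≤ dim Y` (`TimesLaw` for `r = 1`); the same
is true for the Tate conjecture together with the semisimplicity of the eigenvalue (`r` arbitrary). No
semisimplicity and no form of the standard conjectures is assumed for `U`. Only the following is used of
cycles (`IsTateData`): products of cycles are cycles, push-forward to `U`, cycles on `Y` are Tate
classes, and powers of an ample class on `Y` are not zero.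

Theorems 1 and 2 rest on `Pool.Agent.R937.TZ.tfae` and `Pool.Agent.R937.PG.main` of the starting
library. Idea of the proof of Theorem 3: write a Tate class on `Y × U` in the eigenforms of `Y`. If
`b α` is a power of `q` up to a root of unity, `b` a product of Frobenius eigenvalues of `Y`, and if `τ`
fixes `α` up to a root of unity and induces the complex conjugation on the CM fields of `Y`, then `b` and
its conjugate agree up to a root of unity, so that `b` is of Tate type. So each Tate class is a sum of
products `f ⊗ w` of Tate classes of `Y` and of `U`. Conversely, if `w` is a Tate class of `U` then
`f ⊗ w` is one of `Y × U` for each cycle `f` on `Y`; and `w` is, up to a factor, the push-forward of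
its product with the Tate class on `Y` obtained by contracting the volume form with eigenvectors.
-/

set_option autoImplicit false

namespace Pool.Agent.K7.H9.Old.ThreefoldsAndProducts

open Pool.Agent.W495.TA Pool.Agent.K7.H9.TP
open Pool.Agent.R937.PG (IsGoodAVP)
open Pool.Agent.Y137.DU (AreIndependent HasNoOddSupersingular)

/-- **The Tate conjecture** for products of abelian varieties of dimension at most three over finite
fields, and for products of abelian varieties with arbitrary varieties. -/
theorem result (p : ℕ) [Fact p.Prime] (ν : PadicAlgCl p ≃+* ℂ) (Ω : Type) [Field Ω]
    [IsAlgClosed Ω] [CharZero Ω] (𝒜 : Classes p ν Ω) (h𝒜 : IsStable 𝒜) :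
    List.TFAE [AllTate 𝒜, FourTate 𝒜, FourHodge 𝒜] ∧
    (HasKnownClasses 𝒜 → ∀ Y : RedAV p ν, IsGoodAVP Y → TateOn 𝒜 Y) ∧
    ∀ (Y : RedAV p ν) (M : ℕ → Type) [∀ b, AddCommGroup (M b)] [∀ b, Module Ω (M b)]
      [∀ b, FiniteDimensional Ω (M b)] (φ : ∀ b, M b →ₗ[Ω] M b)
      (ZY : ∀ k : ℕ, Set ((TM Ω Y) [⋀^Fin k]→ₗ[Ω] Ω)) (ZU : ∀ b, AddSubgroup (M b))
      (Z : ∀ k b : ℕ, Set ((TM Ω Y) [⋀^Fin k]→ₗ[Ω] M b)), IsTateData Y φ ZY ZU Z →
      AreIndependent Y φ → HasNoOddSupersingular ((p : Ω) ^ Y.a) φ → TateAV Y ZY →
      TimesLaw Y φ ZU Z :=
  ⟨tfae_tate h𝒜, fun hk Y hY s m hs f hf => mem_of_algS h𝒜 hk
    (Pool.Agent.R937.PG.main hY s m hs f hf),
    fun _ _ _ _ _ _ _ _ _ hZ hφ hodd hT r c => tate_iff hT hZ hφ hodd r c⟩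

end Pool.Agent.K7.H9.Old.ThreefoldsAndProducts
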